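import Mathlib
import Pool.Agent.H63.PU.Targets

/-!
# Module EXT (pancake number): the block of `z` inside a closed part of the stack
-/

namespace Pool.Agent.H56.PU.EXT

open Pool.Agent.H63.PU

/-- neighbours -/
def NB (n a b : ℕ) : Prop := b = nx n a ∨ a = nx n b

lemma NB.symm {n a b : ℕ} (h : NB n a b) : NB n b a := Or.symm h

/-- a run -/
def IsRun (n : ℕ) (Y : List ℕ) : Prop := (∃ v, Y = [v]) ∨ Up n Y ∨ Up n Y.reverse

lemma IsRun.reverse {n : ℕ} {Y : List ℕ} (h : IsRun n Y) : IsRun n Y.reverse := by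
  rcases h with ⟨v, rfl⟩ | h | h
  · exact Or.inl ⟨v, rfl⟩
  · exact Or.inr (Or.inr (by rwa [List.reverse_reverse]))
  · exact Or.inr (Or.inl h)

lemma IsRun.ne_nil {n : ℕ} {Y : List ℕ} (h : IsRun n Y) : Y ≠ [] := by
  rcases h with ⟨v, rfl⟩ | h | h
  · simp
  · intro h0
    have := h.2
    rw [h0] at this
    simp at this
  · intro h0
    have := h.2
    rw [h0] at this
    simp at this

/-- extend a run in front -/
lemma extL (hN : T_NX) {n : ℕ} {c y0 : ℕ} {Y : List ℕ}
    (hnd : (c :: Y).Nodup) (hmem : ∀ v ∈ c :: Y, 1 ≤ v ∧ v ≤ n) (hY : IsRun n Y)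
    (hhd : Y.head? = some y0) (hnb : NB n c y0) : IsRun n (c :: Y) := by
  obtain ⟨t, rfl⟩ : ∃ t, Y = y0 :: t := by
    cases Y with
    | nil => simp at hhd
    | cons a t =>
      simp at hhd
      exact ⟨t, by rw [hhd]⟩
  cases t with
  | nil =>
    rcases hnb with h | h
    · right; left
      exact ⟨by simp [h], by simp⟩
    · right; right
      exact ⟨by simp [h], by simp⟩
  | cons y1 t =>
    rcases hY with ⟨v, hv⟩ | h | h
    · simp at hv
    · -- increasing
      have h1 : y1 = nx n y0 := by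
        have := h.1
        rw [List.isChain_cons_cons] at this
        exact this.1
      rcases hnb with h2 | h2
      · right; left
        refine ⟨?_, by simp⟩
        rw [List.isChain_cons_cons]
        exact ⟨h2, h.1⟩
      · exfalso
        have : c = y1 := by rw [h2, h1]
        rw [List.nodup_cons] at hnd
        exact hnd.1 (by simp [this])
    · -- decreasing
      have h1 : y0 = nx n y1 := by
        have := h.1
        rw [List.isChain_reverse, List.isChain_cons_cons] at this
        exact this.1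
      rcases hnb with h2 | h2
      · exfalso
        have h3 : c = y1 := by
          refine hN.2.1 n c y1 (hmem c (by simp)).1 (hmem c (by simp)).2
            (hmem y1 (by simp)).1 (hmem y1 (by simp)).2 ?_
          rw [← h1, ← h2]
        rw [List.nodup_cons] at hnd
        exact hnd.1 (by simp [h3])
      · right; right
        refine ⟨?_, by simp⟩
        rw [List.isChain_reverse, List.isChain_cons_cons]
        refine ⟨h2, ?_⟩
        have := h.1
        rw [List.isChain_reverse] at this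
        exact this

lemma extR (hN : T_NX) {n : ℕ} {d yl : ℕ} {Y : List ℕ}
    (hnd : (Y ++ [d]).Nodup) (hmem : ∀ v ∈ Y ++ [d], 1 ≤ v ∧ v ≤ n) (hY : IsRun n Y)
    (hl : Y.getLast? = some yl) (hnb : NB n yl d) : IsRun n (Y ++ [d]) := by
  have h1 : IsRun n (d :: Y.reverse) := by
    refine extL hN (y0 := yl) ?_ ?_ hY.reverse (by rw [List.head?_reverse]; exact hl) hnb.symm
    · have := List.nodup_reverse.2 hnd
      simpa using this
    · intro v hv
      apply hmem
      simp at hv ⊢
      tauto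
  have := h1.reverse
  simpa using this

/-- a prefix is closed when the boundary is not an edge -/
lemma closed_prefix (hE : T_EDGE) {n : ℕ} {A B : List ℕ} (hnd : (A ++ B).Nodup)
    (hsep : ∀ c d, A.getLast? = some c → B.head? = some d → ¬ NB n c d) :
    Closed n (A ++ B) A := by
  have hdis : ∀ v ∈ A, v ∉ B := by
    intro v hA hB
    exact (List.disjoint_of_nodup_append hnd) hA hB
  intro v hv
  rcases (hE.1 n v A B).1 hv with h | h | ⟨h1, h2⟩ | ⟨h1, h2⟩
  · have := hE.2.2 n v A h
    exact ⟨fun _ => this.2, fun _ => this.1⟩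
  · have := hE.2.2 n v B h
    exact ⟨fun hA => absurd this.1 (hdis _ hA), fun hA => absurd this.2 (hdis _ hA)⟩
  · exact absurd (Or.inl rfl) (hsep _ _ h1 h2)
  · exact absurd (Or.inr rfl) (hsep _ _ h1 h2)

/-- neighbours at a boundary give an edge -/
lemma edge_of_boundary (hE : T_EDGE) {n : ℕ} {A B : List ℕ} {c d : ℕ}
    (h1 : A.getLast? = some c) (h2 : B.head? = some d) (h : NB n c d) :
    ∃ v, Edge n (A ++ B) v ∧ ((v = c ∧ nx n v = d) ∨ (v = d ∧ nx n v = c)) := by
  rcases h with h | h
  · refine ⟨c, (hE.1 n c A B).2 (Or.inr (Or.inr (Or.inl ⟨h1, by rw [h2, h]⟩))), Or.inl ⟨rfl, h.symm⟩⟩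
  · refine ⟨d, (hE.1 n d A B).2 (Or.inr (Or.inr (Or.inr ⟨by rw [h1, h], h2⟩))),
      Or.inr ⟨rfl, h.symm⟩⟩

lemma main (hE : T_EDGE) (hN : T_NX) (n : ℕ) (P l Q : List ℕ) (z : ℕ)
    (hp : (P ++ l ++ Q).Perm (List.range' 1 n)) (hc : Closed n (P ++ l ++ Q) l) :
    ∀ (m : ℕ) (g₁ Y g₂ : List ℕ), g₁.length + g₂.length = m → l = g₁ ++ Y ++ g₂ → z ∈ Y →
      IsRun n Y → ∃ (g₁ Y g₂ : List ℕ), l = g₁ ++ Y ++ g₂ ∧ z ∈ Y ∧
      IsRun n Y ∧ Closed n (P ++ l ++ Q) g₁ ∧
      Closed n (P ++ l ++ Q) Y ∧ Closed n (P ++ l ++ Q) g₂ := by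
  have hnd : (P ++ l ++ Q).Nodup := hp.nodup_iff.2 (List.nodup_range' (step := 1))
  have hmem : ∀ v ∈ P ++ l ++ Q, 1 ≤ v ∧ v ≤ n := by
    intro v hv
    have := hp.mem_iff.1 hv
    rw [List.mem_range'_1] at this
    omega
  intro m
  induction m with
  | zero =>
    intro g₁ Y g₂ hm hl hz hY
    have h1 : g₁ = [] := List.length_eq_zero_iff.1 (by omega)
    have h2 : g₂ = [] := List.length_eq_zero_iff.1 (by omega)
    subst h1 h2
    refine ⟨[], Y, [], hl, hz, hY, ?_, ?_, ?_⟩
    · intro v _; simp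
    · have : Y = l := by simpa using hl.symm
      rw [this]; exact hc
    · intro v _; simp
  | succ m ih =>
    intro g₁ Y g₂ hm hl hz hY
    -- left extension
    by_cases hL : ∃ c y0, g₁.getLast? = some c ∧ Y.head? = some y0 ∧ NB n c y0
    · obtain ⟨c, y0, h1, h2, h3⟩ := hL
      obtain ⟨g₁', rfl⟩ : ∃ g', g₁ = g' ++ [c] := by
        rw [List.getLast?_eq_some_iff] at h1
        exact h1
      refine ih g₁' (c :: Y) g₂ ?_ ?_ (by simp [hz]) ?_
      · simp at hm; omega
      · rw [hl]; simp
      · have hsub : ∀ v ∈ c :: Y, v ∈ P ++ l ++ Q := by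
          intro v hv
          rw [hl]
          simp at hv ⊢
          tauto
        refine extL hN ?_ (fun v hv => hmem v (hsub v hv)) hY h2 h3
        have : (c :: Y).Sublist (P ++ l ++ Q) := by
          rw [hl]
          have h4 : P ++ (g₁' ++ [c] ++ Y ++ g₂) ++ Q = (P ++ g₁') ++ (c :: Y) ++ (g₂ ++ Q) := by
            simp
          rw [h4]
          exact (List.sublist_append_right _ _).trans (List.sublist_append_left _ _)
        exact hnd.sublist this
    by_cases hR : ∃ yl d, Y.getLast? = some yl ∧ g₂.head? = some d ∧ NB n yl d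
    · obtain ⟨yl, d, h1, h2, h3⟩ := hR
      obtain ⟨g₂', rfl⟩ : ∃ g', g₂ = d :: g' := by
        rw [List.head?_eq_some_iff] at h2
        exact h2
      refine ih g₁ (Y ++ [d]) g₂' ?_ ?_ (by simp [hz]) ?_
      · simp at hm; omega
      · rw [hl]; simp
      · have hsub : ∀ v ∈ Y ++ [d], v ∈ P ++ l ++ Q := by
          intro v hv
          rw [hl]
          simp at hv ⊢
          tauto
        refine extR hN ?_ (fun v hv => hmem v (hsub v hv)) hY h1 h3
        have : (Y ++ [d]).Sublist (P ++ l ++ Q) := by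
          rw [hl]
          have h4 : P ++ (g₁ ++ Y ++ d :: g₂') ++ Q = (P ++ g₁) ++ (Y ++ [d]) ++ (g₂' ++ Q) := by
            simp
          rw [h4]
          exact (List.sublist_append_right _ _).trans (List.sublist_append_left _ _)
        exact hnd.sublist this
    -- finished
    refine ⟨g₁, Y, g₂, hl, hz, hY, ?_⟩
    have hYne := hY.ne_nil
    have hnd' : (P ++ (g₁ ++ (Y ++ (g₂ ++ Q)))).Nodup := by
      have : P ++ (g₁ ++ (Y ++ (g₂ ++ Q))) = P ++ l ++ Q := by rw [hl]; simp
      rw [this]; exact hnd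
    have hnd0 := hnd'
    rw [List.nodup_append, List.nodup_append, List.nodup_append, List.nodup_append] at hnd'
    obtain ⟨-, ⟨-, ⟨-, ⟨-, -, hgQ⟩, hYr⟩, hgr⟩, hPr⟩ := hnd'
    have dPl : ∀ v ∈ P, v ∉ l := by
      intro v hv hv'
      rw [hl] at hv'
      exact hPr v hv v (by simp at hv' ⊢; tauto) rfl
    have dQl : ∀ v ∈ Q, v ∉ l := by
      intro v hv hv'
      rw [hl] at hv'
      simp only [List.mem_append] at hv'
      rcases hv' with (h | h) | h
      · exact hgr v h v (by simp [hv]) rfl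
      · exact hYr v h v (by simp [hv]) rfl
      · exact hgQ v h v hv rfl
    -- the first prefix
    have hA : Closed n (P ++ l ++ Q) (P ++ g₁) := by
      have h4 : P ++ l ++ Q = (P ++ g₁) ++ (Y ++ (g₂ ++ Q)) := by rw [hl]; simp
      have hc' := hc
      rw [h4] at hc' ⊢
      refine closed_prefix hE (by rw [← h4]; exact hnd) ?_
      intro c d h1 h2 h3
      have h2' : Y.head? = some d := by
        rw [List.head?_append_of_ne_nil _ hYne] at h2
        exact h2
      have hdY : d ∈ Y := List.mem_of_mem_head? h2'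
      have hdl : d ∈ l := by rw [hl]; simp [hdY]
      obtain ⟨v, hv, hv'⟩ := edge_of_boundary hE h1 h2 h3
      have hcl : c ∈ l := by
        rcases hv' with ⟨rfl, h5⟩ | ⟨rfl, h5⟩
        · exact (hc' v hv).2 (by rw [h5]; exact hdl)
        · rw [← h5]; exact (hc' v hv).1 hdl
      by_cases hg : g₁ = []
      · rw [hg, List.append_nil] at h1
        exact dPl c (List.mem_of_mem_getLast? h1) hcl
      · rw [List.getLast?_append_of_ne_nil _ hg] at h1
        exact hL ⟨c, d, h1, h2', h3⟩
    have hB : Closed n (P ++ l ++ Q) (P ++ g₁ ++ Y) := by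
      have h4 : P ++ l ++ Q = (P ++ g₁ ++ Y) ++ (g₂ ++ Q) := by rw [hl]; simp
      have hc' := hc
      rw [h4] at hc' ⊢
      refine closed_prefix hE (by rw [← h4]; exact hnd) ?_
      intro c d h1 h2 h3
      have h1' : Y.getLast? = some c := by
        rw [List.getLast?_append_of_ne_nil _ hYne] at h1
        exact h1
      have hcY : c ∈ Y := List.mem_of_mem_getLast? h1'
      have hcl : c ∈ l := by rw [hl]; simp [hcY]
      obtain ⟨v, hv, hv'⟩ := edge_of_boundary hE h1 h2 h3
      have hdl : d ∈ l := by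
        rcases hv' with ⟨rfl, h5⟩ | ⟨rfl, h5⟩
        · rw [← h5]; exact (hc' v hv).1 hcl
        · exact (hc' v hv).2 (by rw [h5]; exact hcl)
      by_cases hg : g₂ = []
      · rw [hg, List.nil_append] at h2
        exact dQl d (List.mem_of_mem_head? h2) hdl
      · rw [List.head?_append_of_ne_nil _ hg] at h2
        exact hR ⟨c, d, h1', h2, h3⟩
    have e1 : ∀ v, v ∈ g₁ ↔ (v ∈ l ∧ v ∈ P ++ g₁) := by
      intro v
      constructor
      · intro h; exact ⟨by rw [hl]; simp [h], by simp [h]⟩
      · rintro ⟨h1, h2⟩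
        simp only [List.mem_append] at h2
        rcases h2 with h2 | h2
        · exact absurd h1 (dPl v h2)
        · exact h2
    have e2 : ∀ v, v ∈ Y ↔ (v ∈ P ++ g₁ ++ Y ∧ v ∉ P ++ g₁) := by
      intro v
      constructor
      · intro h
        refine ⟨by simp [h], ?_⟩
        intro h2
        simp only [List.mem_append] at h2
        rcases h2 with h2 | h2
        · exact hPr v h2 v (by simp [h]) rfl
        · exact hgr v h2 v (by simp [h]) rfl
      · rintro ⟨h1, h2⟩
        simp only [List.mem_append] at h1 h2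
        tauto
    have e3 : ∀ v, v ∈ g₂ ↔ (v ∈ l ∧ v ∉ P ++ g₁ ++ Y) := by
      intro v
      constructor
      · intro h
        refine ⟨by rw [hl]; simp [h], ?_⟩
        intro h2
        simp only [List.mem_append] at h2
        rcases h2 with (h2 | h2) | h2
        · exact hPr v h2 v (by simp [h]) rfl
        · exact hgr v h2 v (by simp [h]) rfl
        · exact hYr v h2 v (by simp [h]) rfl
      · rintro ⟨h1, h2⟩
        rw [hl] at h1
        simp only [List.mem_append] at h1 h2
        tauto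
    refine ⟨?_, ?_, ?_⟩
    · intro v hv
      rw [e1, e1, hc v hv, hA v hv]
    · intro v hv
      rw [e2, e2, hB v hv, hA v hv]
    · intro v hv
      rw [e3, e3, hc v hv, hB v hv]

theorem ext (hE : T_EDGE) (hN : T_NX) : T_EXT := by
  intro n P l Q z _ hp hc hz
  obtain ⟨g₁, g₂, hl⟩ := List.append_of_mem hz
  obtain ⟨g₁, Y, g₂, h1, h2, h3, h4, h5, h6⟩ := main hE hN n P l Q z hp hc _ g₁ [z] g₂ rfl
    (by rw [hl]; simp) (by simp) (Or.inl ⟨z, rfl⟩)
  rcases h3 with h | h | h
  · refine ⟨g₁, Y, g₂, .s, h1, h2, ?_, h4, h5, h6⟩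
    intro val
    obtain ⟨v, hv⟩ := h
    exact ⟨v, hv, fun h => absurd rfl h, fun h => absurd rfl h⟩
  · refine ⟨g₁, Y, g₂, .p, h1, h2, ?_, h4, h5, h6⟩
    intro val
    exact ⟨h, fun h => absurd rfl h, fun h => absurd rfl h⟩
  · refine ⟨g₁, Y, g₂, .m, h1, h2, ?_, h4, h5, h6⟩
    intro val
    exact ⟨h, fun h => absurd rfl h, fun h => absurd rfl h⟩

end Pool.Agent.H56.PU.EXT
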