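import Mathlib
import Pool.Agent.H63.PU.Targets

/-!
# Module PUT (pancake number): the symbolic operation `put` on real lists
-/

namespace Pool.Agent.H56.PU.PUT

open Pool.Agent.H63.PU

/-- an ascending token: unified form -/
structure Asc (n : ℕ) (val : ℕ → ℕ) (k : Kd) (lo hi : ℕ) (l : List ℕ) : Prop where
  ne : l ≠ []
  chain : l.IsChain (fun a b => b = nx n a)
  lo : lo ≠ 0 → l.head? = some (nx n (val lo))
  hi : hi ≠ 0 → l.getLast? = some (val hi)
  two : k ≠ .s → 2 ≤ l.length

lemma asc_of_notM {n : ℕ} {val : ℕ → ℕ} {k : Kd} {lo hi : ℕ} {l : List ℕ} (hk : notM k = true)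
    (h : Tok n val k lo hi l) : Asc n val k lo hi l := by
  cases k with
  | s =>
    obtain ⟨v, rfl, h1, h2⟩ := h
    exact ⟨by simp, by simp, fun h => by simp [← h1 h], fun h => by simp [← h2 h],
      fun h => absurd rfl h⟩
  | p =>
    obtain ⟨⟨h0, h0'⟩, h1, h2⟩ := h
    refine ⟨?_, h0, h1, h2, fun _ => h0'⟩
    rintro rfl
    simp at h0'
  | m => exact absurd hk (by decide)

lemma asc_of_notP {n : ℕ} {val : ℕ → ℕ} {k : Kd} {lo hi : ℕ} {l : List ℕ} (hk : notP k = true)
    (h : Tok n val k lo hi l) : Asc n val k lo hi l.reverse := by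
  cases k with
  | s =>
    obtain ⟨v, rfl, h1, h2⟩ := h
    exact ⟨by simp, by simp, fun h => by simp [← h1 h], fun h => by simp [← h2 h],
      fun h => absurd rfl h⟩
  | m =>
    obtain ⟨⟨h0, h0'⟩, h1, h2⟩ := h
    refine ⟨?_, h0, ?_, ?_, fun _ => h0'⟩
    · intro h
      rw [h] at h0'
      simp at h0'
    · intro h; rw [List.head?_reverse]; exact h1 h
    · intro h; rw [List.getLast?_reverse]; exact h2 h
  | p => exact absurd hk (by decide)

/-- The concatenation of two ascending tokens. -/
lemma up_append {n : ℕ} {val : ℕ → ℕ} {ka kb : Kd} {la ha lb hb : ℕ} {A B : List ℕ}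
    (hA : Asc n val ka la ha A) (hB : Asc n val kb lb hb B) (h0 : ha ≠ 0) (h1 : ha = lb) :
    Up n (A ++ B) := by
  refine ⟨?_, ?_⟩
  · rw [List.isChain_append]
    refine ⟨hA.chain, hB.chain, ?_⟩
    intro x hx y hy
    rw [hA.hi h0, Option.mem_some_iff] at hx
    rw [hB.lo (h1 ▸ h0), Option.mem_some_iff] at hy
    rw [← hx, ← hy, h1]
  · have h2 := List.length_pos_iff.2 hA.ne
    have h3 := List.length_pos_iff.2 hB.ne
    rw [List.length_append]
    omega

/-- The drop of the potential. -/
lemma drop (hE : T_EDGE) (hM : T_PHIM) (hJ : T_PHIJ) {W : Wts} (hW : W.Ok) {n : ℕ} (hn : 3 ≤ n)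
    {val : ℕ → ℕ} (hval : ∀ e, 1 ≤ val e ∧ val e ≤ n)
    {ka kb : Kd} {la ha lb hb : ℕ} {A B : List ℕ}
    (hA : Asc n val ka la ha A) (hB : Asc n val kb lb hb B) (h0 : ha ≠ 0) (h1 : ha = lb)
    (hmem : ∀ v ∈ A, 1 ≤ v ∧ v ≤ n) (p p' : ℕ → Prop) (hAp : ∀ v, Edge n A v → p v)
    (hBp : ∀ v, Edge n B v → p v) (hnp : ¬ p (val ha)) (hpp : ∀ v, p v → p' v)
    (hp' : ∀ v, Edge n (A ++ B) v → p' v) :
    phi W n p' + gain W ka kb ≤ phi W n p := by
  have h2 : phi W n p' ≤ phi W n (fun v => p v ∨ v = val ha) := by
    refine hM W n _ _ hW ?_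
    rintro v (h | rfl)
    · exact hpp v h
    · apply hp'
      refine (hE.1 n _ A B).2 (Or.inr (Or.inr (Or.inl ⟨hA.hi h0, ?_⟩)))
      rw [hB.lo (h1 ▸ h0), h1]
  have h3 := hJ W n (val ha) p ka kb hW hn (hval ha).1 (hval ha).2 hnp ?_ ?_
  · linarith
  · intro hk
    have h4 := hA.two hk
    have h5 := hA.hi h0
    rw [List.getLast?_eq_some_iff] at h5
    obtain ⟨A', hA'⟩ := h5
    have h6 : A' ≠ [] := by
      rintro rfl
      rw [hA'] at h4
      simp at h4
    obtain ⟨A'', u, hu⟩ : ∃ A'' u, A' = A'' ++ [u] :=
      ⟨A'.dropLast, A'.getLast h6, (List.dropLast_append_getLast h6).symm⟩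
    have h7 : val ha = nx n u := by
      have h8 := hA.chain
      rw [hA', hu, List.isChain_append] at h8
      exact h8.2.2 u (by simp) (val ha) (by simp)
    have hmu := hmem u (by rw [hA', hu]; simp)
    refine ⟨u, hmu.1, hmu.2, h7.symm, hAp u (Or.inl ?_)⟩
    rw [hA', hu, h7]
    exact ⟨A'', [], by simp⟩
  · intro hk
    have h4 := hB.two hk
    have h5 := hB.lo (h1 ▸ h0)
    rw [List.head?_eq_some_iff] at h5
    obtain ⟨B', hB'⟩ := h5
    cases B' with
    | nil =>
      rw [hB'] at h4
      simp at h4
    | cons w B'' =>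
      have h7 : w = nx n (nx n (val lb)) := by
        have h8 := hB.chain
        rw [hB', List.isChain_cons_cons] at h8
        exact h8.1
      apply hBp
      left
      rw [hB', h1, ← h7]
      exact ⟨[], B'', by simp⟩

lemma gain_symm (W : Wts) (ka kb : Kd) : gain W ka kb = gain W kb ka := by
  cases ka <;> cases kb <;> rfl

lemma beq_nat {a b : ℕ} (h : Nat.beq a b = true) : a = b := Nat.eq_of_beq_eq_true h

/-- `join` -/
lemma join_spec {W : Wts} {ku kv : Kd} {lu hu lv hv : ℕ} {z : Item} {g : ℕ}
    (h : join W (.tok ku lu hu) (.tok kv lv hv) = some (z, g)) :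
    (notM ku = true ∧ notM kv = true ∧ hu ≠ 0 ∧ hu = lv ∧ z = .tok .p lu hv ∧ g = gain W ku kv) ∨
    (notP ku = true ∧ notP kv = true ∧ lu ≠ 0 ∧ lu = hv ∧ z = .tok .m lv hu ∧
      g = gain W ku kv) := by
  simp only [join] at h
  cases hc : (notM ku && (notM kv && (!(Nat.beq hu 0) && Nat.beq hu lv))) with
  | true =>
    rw [hc, cond_true] at h
    simp only [Bool.and_eq_true, Bool.not_eq_true'] at hc
    obtain ⟨h1, h2, h3, h4⟩ := hc
    left
    simp only [Option.some.injEq, Prod.mk.injEq] at h
    refine ⟨h1, h2, ?_, beq_nat h4, h.1.symm, h.2.symm⟩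
    rintro rfl
    simp at h3
  | false =>
    rw [hc, cond_false] at h
    cases hc' : (notP ku && (notP kv && (!(Nat.beq lu 0) && Nat.beq lu hv))) with
    | true =>
      rw [hc', cond_true] at h
      simp only [Bool.and_eq_true, Bool.not_eq_true'] at hc'
      obtain ⟨h1, h2, h3, h4⟩ := hc'
      right
      simp only [Option.some.injEq, Prod.mk.injEq] at h
      refine ⟨h1, h2, ?_, beq_nat h4, h.1.symm, h.2.symm⟩
      rintro rfl
      simp at h3
    | false =>
      rw [hc', cond_false] at h
      simp at h

/-- The edges of the parts after joining two consecutive parts. -/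
lemma edgeR_join (hE : T_EDGE) {n : ℕ} {x y z : Item × List ℕ} {S R : List (Item × List ℕ)}
    (hz : z.2 = x.2 ++ y.2) (v : ℕ) :
    (EdgeR n (S ++ x :: y :: R) v → EdgeR n (S ++ z :: R) v) ∧
    (Edge n (x.2 ++ y.2) v → EdgeR n (S ++ z :: R) v) := by
  refine ⟨?_, ?_⟩
  · rintro ⟨w, hw, hwv⟩
    simp only [List.mem_append, List.mem_cons] at hw
    rcases hw with hw | rfl | rfl | hw
    · exact ⟨w, by simp [hw], hwv⟩
    · exact ⟨z, by simp, by rw [hz]; exact (hE.1 n v _ _).2 (Or.inl hwv)⟩
    · exact ⟨z, by simp, by rw [hz]; exact (hE.1 n v _ _).2 (Or.inr (Or.inl hwv))⟩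
    · exact ⟨w, by simp [hw], hwv⟩
  · intro h
    exact ⟨z, by simp, by rw [hz]; exact h⟩

/-- An edge between two different parts is not an edge of a part. -/
lemma not_edgeR (hE : T_EDGE) {n : ℕ} {x y : Item × List ℕ} {S R : List (Item × List ℕ)}
    (hp : ((S ++ x :: y :: R).map Prod.snd).flatten.Perm (List.range' 1 n)) {v : ℕ}
    (h : (v ∈ x.2 ∧ nx n v ∈ y.2) ∨ (v ∈ y.2 ∧ nx n v ∈ x.2)) :
    ¬ EdgeR n (S ++ x :: y :: R) v := by
  have hnd : ((S ++ x :: y :: R).map Prod.snd).flatten.Nodup :=
    hp.nodup_iff.2 (List.nodup_range' (step := 1))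
  have e1 : ((S ++ x :: y :: R).map Prod.snd).flatten
      = (S.map Prod.snd).flatten ++ (x.2 ++ (y.2 ++ (R.map Prod.snd).flatten)) := by
    simp
  rw [e1, List.nodup_append, List.nodup_append, List.nodup_append] at hnd
  obtain ⟨-, ⟨-, ⟨-, -, hyR⟩, hxr⟩, hSr⟩ := hnd
  rintro ⟨w, hw, hwv⟩
  obtain ⟨h1, h2⟩ := hE.2.2 n v w.2 hwv
  simp only [List.mem_append, List.mem_cons] at hw
  rcases hw with hw | rfl | rfl | hw
  · have h3 : v ∈ (S.map Prod.snd).flatten :=
      List.mem_flatten.2 ⟨w.2, List.mem_map_of_mem hw, h1⟩
    rcases h with h | h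
    · exact hSr v h3 v (by simp [h.1]) rfl
    · exact hSr v h3 v (by simp [h.1]) rfl
  · rcases h with h | h
    · exact hxr _ h2 _ (by simp [h.2]) rfl
    · exact hxr _ h1 _ (by simp [h.1]) rfl
  · rcases h with h | h
    · exact hxr _ h.1 _ (by simp [h1]) rfl
    · exact hxr _ h.2 _ (by simp [h2]) rfl
  · have h3 : v ∈ (R.map Prod.snd).flatten :=
      List.mem_flatten.2 ⟨w.2, List.mem_map_of_mem hw, h1⟩
    rcases h with h | h
    · exact hxr v h.1 v (by simp only [List.mem_append]; exact Or.inr h3) rfl
    · exact hyR v h.1 v h3 rfl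

theorem put' (hE : T_EDGE) (hM : T_PHIM) (hJ : T_PHIJ) : T_PUT := by
  intro W n val x R S hW hn hval hp hitem
  -- the trivial case
  have triv : put W x.1 (R.map Prod.fst) = (x.1 :: R.map Prod.fst, 0) →
      ∃ R', R'.map Prod.fst = (put W x.1 (R.map Prod.fst)).1 ∧
        (R'.map Prod.snd).flatten = ((x :: R).map Prod.snd).flatten ∧
        (∀ z ∈ R', ItemR n val z.1 z.2) ∧
        phi W n (EdgeR n (S ++ R')) + (put W x.1 (R.map Prod.fst)).2 ≤
          phi W n (EdgeR n (S ++ x :: R)) := by
    intro h
    refine ⟨x :: R, by rw [h]; simp, rfl, fun z hz => hitem z (by simp only [List.mem_append]; exact Or.inr hz), ?_⟩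
    rw [h]; simp
  cases R with
  | nil => exact triv (by simp [put])
  | cons y R =>
    obtain ⟨ix, lx⟩ := x
    obtain ⟨iy, ly⟩ := y
    cases ix with
    | gap =>
      cases iy with
      | gap =>
        refine ⟨(.gap, lx ++ ly) :: R, by simp [put], by simp, ?_, ?_⟩
        · intro z hz
          rw [List.mem_cons] at hz
          rcases hz with rfl | hz
          · exact trivial
          · exact hitem z (by simp [hz])
        · have h1 : phi W n (EdgeR n (S ++ (Item.gap, lx ++ ly) :: R))
              ≤ phi W n (EdgeR n (S ++ (Item.gap, lx) :: (Item.gap, ly) :: R)) :=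
            hM W n _ _ hW fun v => (edgeR_join hE (x := (Item.gap, lx)) (y := (Item.gap, ly))
              (z := (Item.gap, lx ++ ly)) rfl v).1
          simpa [put] using h1
      | tok kv lv hv => exact triv (by simp [put, join])
    | tok ku lu hu =>
      cases iy with
      | gap => exact triv (by simp [put, join])
      | tok kv lv hv =>
        cases hj : join W (.tok ku lu hu) (.tok kv lv hv) with
        | none => exact triv (by simp [put, hj])
        | some zg =>
          obtain ⟨z, g⟩ := zg
          have hput : put W (.tok ku lu hu) (((Item.tok kv lv hv, ly) :: R).map Prod.fst)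
              = (z :: R.map Prod.fst, g) := by
            simp [put, hj]
          have hx : Tok n val ku lu hu lx := hitem (.tok ku lu hu, lx) (by simp)
          have hy : Tok n val kv lv hv ly := hitem (.tok kv lv hv, ly) (by simp)
          have hmem : ∀ v ∈ lx ++ ly, 1 ≤ v ∧ v ≤ n := by
            intro v hvv
            have h1 : v ∈ ((S ++ (Item.tok ku lu hu, lx) :: (Item.tok kv lv hv, ly) ::
                R).map Prod.snd).flatten := by
              simp only [List.map_append, List.map_cons, List.flatten_append, List.flatten_cons,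
                List.mem_append] at hvv ⊢
              tauto
            have h2 := hp.mem_iff.1 h1
            rw [List.mem_range'_1] at h2
            omega
          refine ⟨(z, lx ++ ly) :: R, by rw [hput]; simp, by simp, ?_, ?_⟩
          · intro w hw
            rw [List.mem_cons] at hw
            rcases hw with rfl | hw
            · rcases join_spec hj with ⟨h1, h2, h3, h4, rfl, -⟩ | ⟨h1, h2, h3, h4, rfl, -⟩
              · have hA := asc_of_notM h1 hx
                have hB := asc_of_notM h2 hy
                refine ⟨up_append hA hB h3 h4, ?_, ?_⟩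
                · intro h
                  change (lx ++ ly).head? = _
                  rw [List.head?_append_of_ne_nil _ hA.ne]
                  exact hA.lo h
                · intro h
                  change (lx ++ ly).getLast? = _
                  rw [List.getLast?_append_of_ne_nil _ hB.ne]
                  exact hB.hi h
              · have hA := asc_of_notP h2 hy
                have hB := asc_of_notP h1 hx
                refine ⟨?_, ?_, ?_⟩
                · change Up n (lx ++ ly).reverse
                  rw [List.reverse_append]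
                  exact up_append hA hB (h4 ▸ h3) h4.symm
                · intro h
                  change (lx ++ ly).getLast? = _
                  have h5 : ly ≠ [] := by
                    intro h; exact hA.ne (by rw [h]; rfl)
                  rw [List.getLast?_append_of_ne_nil _ h5, ← List.head?_reverse]
                  exact hA.lo h
                · intro h
                  change (lx ++ ly).head? = _
                  have h5 : lx ≠ [] := by
                    intro h; exact hB.ne (by rw [h]; rfl)
                  rw [List.head?_append_of_ne_nil _ h5, ← List.getLast?_reverse]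
                  exact hB.hi h
            · exact hitem w (by simp [hw])
          · rw [hput]
            have hjoin := fun v => edgeR_join (S := S) (R := R) hE
              (x := (Item.tok ku lu hu, lx)) (y := (Item.tok kv lv hv, ly))
              (z := (z, lx ++ ly)) (n := n) rfl v
            rcases join_spec hj with ⟨h1, h2, h3, h4, -, hg⟩ | ⟨h1, h2, h3, h4, -, hg⟩
            · have hA := asc_of_notM h1 hx
              have hB := asc_of_notM h2 hy
              rw [hg]
              refine drop hE hM hJ hW hn hval hA hB h3 h4 (fun v hvv => hmem v (by simp [hvv])) _ _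
                ?_ ?_ ?_ (fun v => (hjoin v).1) (fun v => (hjoin v).2)
              · intro v hvv
                exact ⟨(Item.tok ku lu hu, lx), by simp, hvv⟩
              · intro v hvv
                exact ⟨(Item.tok kv lv hv, ly), by simp, hvv⟩
              · refine not_edgeR hE hp (Or.inl ⟨?_, ?_⟩)
                · exact List.mem_of_mem_getLast? (hA.hi h3)
                · have := hB.lo (h4 ▸ h3)
                  rw [← h4] at this
                  exact List.mem_of_mem_head? this
            · have hA := asc_of_notP h2 hy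
              have hB := asc_of_notP h1 hx
              rw [hg, gain_symm]
              refine drop hE hM hJ hW hn hval hA hB (h4 ▸ h3) h4.symm
                (fun v hvv => hmem v (by simp at hvv; simp [hvv])) _ _
                ?_ ?_ ?_ (fun v => (hjoin v).1) ?_
              · intro v hvv
                exact ⟨(Item.tok kv lv hv, ly), by simp, (hE.2.1 n v ly).1 hvv⟩
              · intro v hvv
                exact ⟨(Item.tok ku lu hu, lx), by simp, (hE.2.1 n v lx).1 hvv⟩
              · refine not_edgeR hE hp (Or.inr ⟨?_, ?_⟩)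
                · have := List.mem_of_mem_getLast? (hA.hi (h4 ▸ h3))
                  simpa using this
                · have h5 := hB.lo h3
                  rw [h4] at h5
                  have := List.mem_of_mem_head? h5
                  simpa using this
              · intro v hvv
                apply (hjoin v).2
                rw [← List.reverse_append] at hvv
                exact (hE.2.1 n v _).1 hvv

end Pool.Agent.H56.PU.PUT
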